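import Pool.Agent.Helper63.Sey3.Goals

/-!
# Packet SPLIT of project SEY3 (MP_b6b2d3_co): iterated halving
-/

namespace Pool.Agent.Helper5.Sey3

open Pool.Agent.Helper8.Sey (near NearBd)
open Pool.Agent.Helper63.Sey3

/-- The degree bounds. -/
noncomputable def B (e x : ℝ) (t : ℕ) : ℕ := ⌈x * 2 ^ t * (1 + e * (3 / 4) ^ t)⌉₊

/-- The bounds for the numbers of pairs. -/
noncomputable def F (e δ x : ℝ) (t : ℕ) : ℕ :=
  ⌈(1 - δ) * (x * 2 ^ t) ^ 2 * (1 + e * (3 / 4) ^ t)⌉₊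

theorem le_B (e x : ℝ) (t : ℕ) : x * 2 ^ t * (1 + e * (3 / 4) ^ t) ≤ B e x t := Nat.le_ceil _

theorem B_lt {e x : ℝ} (he : 0 ≤ e) (hx : 0 ≤ x) (t : ℕ) :
    (B e x t : ℝ) < x * 2 ^ t * (1 + e * (3 / 4) ^ t) + 1 :=
  Nat.ceil_lt_add_one (by positivity)

theorem le_F (e δ x : ℝ) (t : ℕ) :
    (1 - δ) * (x * 2 ^ t) ^ 2 * (1 + e * (3 / 4) ^ t) ≤ F e δ x t := Nat.le_ceil _

theorem F_lt {e δ x : ℝ} (he : 0 ≤ e) (hδ : δ ≤ 1 / 2) (t : ℕ) :
    (F e δ x t : ℝ) < (1 - δ) * (x * 2 ^ t) ^ 2 * (1 + e * (3 / 4) ^ t) + 1 := by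
  refine Nat.ceil_lt_add_one ?_
  have h : 0 ≤ 1 - δ := by linarith
  positivity

/-- The exponential estimate. -/
theorem exp_ok {c x : ℝ} (hc : 0 < c) (hx0 : 0 < x) (hx3 : 24 / c ≤ x) (hx4 : 6144 / c ^ 3 ≤ x)
    (t : ℕ) {D y : ℝ} (hD0 : 0 ≤ D) (hD : D ≤ 4 * x * 2 ^ t) (hy : c * x * (9 / 8) ^ t ≤ y) :
    64 * D ^ 2 * Real.exp (-y) ≤ 1 := by
  have h98 : 1 + (t : ℝ) / 8 ≤ (9 / 8) ^ t := by
    have h := one_add_mul_le_pow (show (-2 : ℝ) ≤ 1 / 8 by norm_num) t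
    have e1 : (1 + (1 / 8 : ℝ)) = 9 / 8 := by norm_num
    rw [e1] at h
    linarith
  have hexp : c * x * (1 + (t : ℝ) / 8) ≤ y :=
    le_trans (mul_le_mul_of_nonneg_left h98 (by positivity)) hy
  have hcx : 24 ≤ c * x := by
    rw [div_le_iff₀ hc] at hx3
    linarith
  have hcx3 : 6144 * x ^ 2 ≤ (c * x) ^ 3 := by
    rw [div_le_iff₀ (by positivity)] at hx4
    calc 6144 * x ^ 2 ≤ x * c ^ 3 * x ^ 2 := by
          apply mul_le_mul_of_nonneg_right hx4 (by positivity)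
      _ = (c * x) ^ 3 := by ring
  have h4t : (4 : ℝ) ^ t ≤ Real.exp (c * x * ((t : ℝ) / 8)) := by
    have h1 : (4 : ℝ) ≤ Real.exp (c * x / 8) := by
      have := Real.add_one_le_exp (c * x / 8)
      linarith
    calc (4 : ℝ) ^ t ≤ (Real.exp (c * x / 8)) ^ t := pow_le_pow_left₀ (by norm_num) h1 t
      _ = Real.exp (c * x * ((t : ℝ) / 8)) := by
          rw [← Real.exp_nat_mul]
          congr 1
          ring
  have hx2' : 1024 * x ^ 2 ≤ Real.exp (c * x) := by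
    have h1 := Real.pow_div_factorial_le_exp (c * x) (by positivity) 3
    have h2 : ((3 : ℕ).factorial : ℝ) = 6 := by norm_num [Nat.factorial]
    rw [h2] at h1
    calc 1024 * x ^ 2 = 6144 * x ^ 2 / 6 := by ring
      _ ≤ (c * x) ^ 3 / 6 := by linarith
      _ ≤ Real.exp (c * x) := h1
  have hD2 : 64 * D ^ 2 ≤ 1024 * x ^ 2 * 4 ^ t := by
    have h1 : D ^ 2 ≤ (4 * x * 2 ^ t) ^ 2 := pow_le_pow_left₀ hD0 hD 2
    have h2 : (4 * x * 2 ^ t) ^ 2 = 16 * x ^ 2 * 4 ^ t := by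
      rw [mul_pow, mul_pow, ← pow_mul, mul_comm t 2, pow_mul]
      norm_num
    rw [h2] at h1
    linarith
  have hfin : 64 * D ^ 2 ≤ Real.exp y := by
    calc 64 * D ^ 2 ≤ 1024 * x ^ 2 * 4 ^ t := hD2
      _ ≤ Real.exp (c * x) * Real.exp (c * x * ((t : ℝ) / 8)) :=
          mul_le_mul hx2' h4t (by positivity) (Real.exp_pos _).le
      _ = Real.exp (c * x * (1 + (t : ℝ) / 8)) := by
          rw [← Real.exp_add]
          congr 1
          ring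
      _ ≤ Real.exp y := Real.exp_le_exp.mpr hexp
  rw [Real.exp_neg, ← div_eq_mul_inv, div_le_one (Real.exp_pos _)]
  exact hfin

/-- The conditions of one halving step. -/
theorem step_ok {e δ x : ℝ} (he : 0 < e) (he2 : e ≤ 1 / 2) (hδ0 : 0 < δ) (hδ : δ ≤ 1 / 2)
    (hx1 : 1 ≤ x) (hx2 : 4 / e ≤ x) (hx3 : 24 / (e ^ 2 / 524288) ≤ x)
    (hx4 : 6144 / (e ^ 2 / 524288) ^ 3 ≤ x) (t : ℕ) :
    1 ≤ B e x (t + 1) ∧ B e x (t + 1) ≤ 2 * B e x t ∧ F e δ x (t + 1) ≤ 4 * F e δ x t ∧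
    64 * (B e x (t + 1) : ℝ) ^ 2 *
      Real.exp (-(2 * ((B e x t : ℝ) - B e x (t + 1) / 2) ^ 2 / B e x (t + 1))) ≤ 1 ∧
    64 * (B e x (t + 1) : ℝ) ^ 2 *
      Real.exp (-(((F e δ x t : ℝ) - F e δ x (t + 1) / 4) ^ 2 /
        (32 * (B e x (t + 1) : ℝ) ^ 3))) ≤ 1 := by
  have hx0 : 0 < x := by linarith
  set D : ℝ := (B e x (t + 1) : ℝ) with hD
  set D' : ℝ := (B e x t : ℝ) with hD'
  set E : ℝ := (F e δ x (t + 1) : ℝ) with hE
  set E' : ℝ := (F e δ x t : ℝ) with hE'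
  set c : ℝ := e ^ 2 / 524288 with hc
  have hc0 : 0 < c := by positivity
  have h2t : (0 : ℝ) < 2 ^ t := by positivity
  have h2t1 : (1 : ℝ) ≤ 2 ^ t := one_le_pow₀ (by norm_num)
  have hE0 : (0 : ℝ) < (3 / 4) ^ t := by positivity
  have hE1 : (3 / 4 : ℝ) ^ t ≤ 1 := pow_le_one₀ (by norm_num) (by norm_num)
  have hprod : (2 : ℝ) ^ t * (3 / 4) ^ t = (3 / 2) ^ t := by
    rw [← mul_pow]; norm_num
  have hprod3 : (2 ^ t : ℝ) ^ 2 * (3 / 4) ^ t = 3 ^ t := by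
    rw [← pow_mul, mul_comm t 2, pow_mul, ← mul_pow]; norm_num
  have a1 : x * 2 ^ t * (1 + e * (3 / 4) ^ t) ≤ D' := le_B e x t
  have a2 : D < x * 2 ^ (t + 1) * (1 + e * (3 / 4) ^ (t + 1)) + 1 := B_lt he.le hx0.le (t + 1)
  have a3 : x * 2 ^ (t + 1) * (1 + e * (3 / 4) ^ (t + 1)) ≤ D := le_B e x (t + 1)
  have b1 : (1 - δ) * (x * 2 ^ t) ^ 2 * (1 + e * (3 / 4) ^ t) ≤ E' := le_F e δ x t
  have b2 : E < (1 - δ) * (x * 2 ^ (t + 1)) ^ 2 * (1 + e * (3 / 4) ^ (t + 1)) + 1 :=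
    F_lt he.le hδ (t + 1)
  have hDpos : 1 ≤ D := by
    have h1 : (1 : ℝ) ≤ x * 2 ^ (t + 1) * (1 + e * (3 / 4) ^ (t + 1)) := by
      have h3 : (1 : ℝ) ≤ 2 ^ (t + 1) := one_le_pow₀ (by norm_num)
      have h4 : (1 : ℝ) ≤ 1 + e * (3 / 4) ^ (t + 1) := by
        have : 0 ≤ e * (3 / 4) ^ (t + 1) := by positivity
        linarith
      calc (1 : ℝ) = 1 * 1 * 1 := by norm_num
        _ ≤ x * 2 ^ (t + 1) * (1 + e * (3 / 4) ^ (t + 1)) := by gcongr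
    linarith
  have hD0 : 0 < D := by linarith
  have hDle : D ≤ 4 * x * 2 ^ t := by
    have h1 : e * (3 / 4) ^ (t + 1) ≤ 1 / 2 := by
      have h3 : (3 / 4 : ℝ) ^ (t + 1) ≤ 1 := pow_le_one₀ (by norm_num) (by norm_num)
      have h4 : (0 : ℝ) ≤ (3 / 4) ^ (t + 1) := by positivity
      nlinarith
    have h2 : x * 2 ^ (t + 1) * (1 + e * (3 / 4) ^ (t + 1)) ≤ x * 2 ^ (t + 1) * (3 / 2) := by
      apply mul_le_mul_of_nonneg_left _ (by positivity)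
      linarith
    have h3 : x * 2 ^ (t + 1) * (3 / 2) = 3 * x * 2 ^ t := by rw [pow_succ]; ring
    have h4 : 1 ≤ x * 2 ^ t := by nlinarith
    have h5 : 4 * x * 2 ^ t = 3 * x * 2 ^ t + x * 2 ^ t := by ring
    linarith
  have hxe : 4 ≤ x * e := by
    rw [div_le_iff₀ he] at hx2
    linarith
  set lam : ℝ := x * e / 8 * (3 / 2) ^ t with hlam
  have hlam0 : 0 < lam := by positivity
  have hdiff : lam ≤ D' - D / 2 := by
    have h1 : D / 2 < x * 2 ^ t * (1 + 3 / 4 * (e * (3 / 4) ^ t)) + 1 / 2 := by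
      have h2 : x * 2 ^ (t + 1) * (1 + e * (3 / 4) ^ (t + 1)) + 1 =
          2 * (x * 2 ^ t * (1 + 3 / 4 * (e * (3 / 4) ^ t)) + 1 / 2) := by
        rw [pow_succ, pow_succ]; ring
      rw [h2] at a2
      linarith
    have h3 : x * 2 ^ t * (1 + e * (3 / 4) ^ t) -
        x * 2 ^ t * (1 + 3 / 4 * (e * (3 / 4) ^ t)) = x * e / 4 * (3 / 2) ^ t := by
      rw [← hprod]; ring
    have h4 : 1 ≤ x * e / 4 * (3 / 2) ^ t := by
      have h6 : (1 : ℝ) ≤ (3 / 2) ^ t := one_le_pow₀ (by norm_num)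
      nlinarith
    have h7 : lam = x * e / 4 * (3 / 2) ^ t / 2 := by rw [hlam]; ring
    linarith
  set mu : ℝ := e / 16 * x ^ 2 * 3 ^ t with hmu
  have hmu0 : 0 < mu := by positivity
  have hdiffE : mu ≤ E' - E / 4 := by
    have h1 : E / 4 < (1 - δ) * (x * 2 ^ t) ^ 2 * (1 + 3 / 4 * (e * (3 / 4) ^ t)) + 1 / 4 := by
      have h2 : (1 - δ) * (x * 2 ^ (t + 1)) ^ 2 * (1 + e * (3 / 4) ^ (t + 1)) + 1 =
          4 * ((1 - δ) * (x * 2 ^ t) ^ 2 * (1 + 3 / 4 * (e * (3 / 4) ^ t)) + 1 / 4) := by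
        rw [pow_succ, pow_succ]; ring
      rw [h2] at b2
      linarith
    have h3 : (1 - δ) * (x * 2 ^ t) ^ 2 * (1 + e * (3 / 4) ^ t) -
        (1 - δ) * (x * 2 ^ t) ^ 2 * (1 + 3 / 4 * (e * (3 / 4) ^ t)) =
          (1 - δ) * (e / 4 * x ^ 2 * 3 ^ t) := by
      rw [← hprod3]; ring
    have h4 : 1 / 2 * (e / 4 * x ^ 2 * 3 ^ t) ≤ (1 - δ) * (e / 4 * x ^ 2 * 3 ^ t) :=
      mul_le_mul_of_nonneg_right (by linarith) (by positivity)
    have h5 : 1 / 4 ≤ mu := by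
      have h6 : (1 : ℝ) ≤ 3 ^ t := one_le_pow₀ (by norm_num)
      have h7 : (1 / 4 : ℝ) ≤ e / 16 * x ^ 2 := by nlinarith
      calc (1 / 4 : ℝ) = 1 / 4 * 1 := by ring
        _ ≤ e / 16 * x ^ 2 * 3 ^ t := by gcongr
    have h8 : 1 / 2 * (e / 4 * x ^ 2 * 3 ^ t) = 2 * mu := by rw [hmu]; ring
    linarith
  have hDpos' : 1 ≤ B e x (t + 1) := by
    have h1 : ((1 : ℕ) : ℝ) ≤ (B e x (t + 1) : ℝ) := by
      rw [Nat.cast_one]
      exact hDpos
    exact_mod_cast h1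
  refine ⟨hDpos', ?_, ?_, ?_, ?_⟩
  · have h1 : D ≤ 2 * D' := by linarith
    have h2 : ((B e x (t + 1) : ℕ) : ℝ) ≤ ((2 * B e x t : ℕ) : ℝ) := by
      push_cast
      exact h1
    exact_mod_cast h2
  · have h1 : E ≤ 4 * E' := by linarith
    have h2 : ((F e δ x (t + 1) : ℕ) : ℝ) ≤ ((4 * F e δ x t : ℕ) : ℝ) := by
      push_cast
      exact h1
    exact_mod_cast h2
  · refine exp_ok hc0 hx0 hx3 hx4 t hD0.le hDle ?_
    rw [le_div_iff₀ hD0]
    have h1 : lam ^ 2 ≤ (D' - D / 2) ^ 2 := pow_le_pow_left₀ hlam0.le hdiff 2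
    have h2 : lam ^ 2 = x ^ 2 * e ^ 2 / 64 * ((3 / 2) ^ t) ^ 2 := by rw [hlam]; ring
    have h3 : ((3 / 2 : ℝ) ^ t) ^ 2 = 2 ^ t * (9 / 8) ^ t := by
      rw [← pow_mul, mul_comm t 2, pow_mul, ← mul_pow]
      norm_num
    calc c * x * (9 / 8) ^ t * D ≤ e ^ 2 / 128 * x * (9 / 8) ^ t * (4 * x * 2 ^ t) := by
          apply mul_le_mul _ hDle hD0.le (by positivity)
          have h5 : c ≤ e ^ 2 / 128 := by rw [hc]; gcongr; norm_num
          gcongr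
      _ = 2 * lam ^ 2 := by
          rw [h2, h3]; ring
      _ ≤ 2 * (D' - D / 2) ^ 2 := by linarith
  · refine exp_ok hc0 hx0 hx3 hx4 t hD0.le hDle ?_
    rw [le_div_iff₀ (by positivity)]
    have h1 : mu ^ 2 ≤ (E' - E / 4) ^ 2 := pow_le_pow_left₀ hmu0.le hdiffE 2
    have h2 : mu ^ 2 = e ^ 2 / 256 * x ^ 4 * (3 ^ t) ^ 2 := by rw [hmu]; ring
    have h3 : ((3 : ℝ) ^ t) ^ 2 = (9 / 8) ^ t * (2 ^ t) ^ 3 := by
      rw [← pow_mul, ← pow_mul, mul_comm t 2, mul_comm t 3, pow_mul, pow_mul, ← mul_pow]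
      norm_num
    have h4 : D ^ 3 ≤ (4 * x * 2 ^ t) ^ 3 := pow_le_pow_left₀ hD0.le hDle 3
    calc c * x * (9 / 8) ^ t * (32 * D ^ 3) ≤ c * x * (9 / 8) ^ t * (32 * (4 * x * 2 ^ t) ^ 3) := by
          gcongr
      _ = mu ^ 2 := by
          rw [h2, h3, hc]; ring
      _ ≤ (E' - E / 4) ^ 2 := h1

/-- PACKET SPLIT. -/
theorem goalSPLIT (hH : GoalHALF) : GoalSPLIT := by
  intro η δ M1 hη hδ0 hδ
  set e : ℝ := min η 1 / 2 with he
  have he0 : 0 < e := by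
    have : 0 < min η 1 := lt_min hη one_pos
    linarith
  have he2 : e ≤ 1 / 2 := by
    have := min_le_right η 1
    linarith
  have heη : 2 * e ≤ η := by
    have := min_le_left η 1
    linarith
  obtain ⟨N1, hN1⟩ := exists_nat_ge (4 / e)
  obtain ⟨N2, hN2⟩ := exists_nat_ge (24 / (e ^ 2 / 524288))
  obtain ⟨N3, hN3⟩ := exists_nat_ge (6144 / (e ^ 2 / 524288) ^ 3)
  obtain ⟨N4, hN4⟩ := exists_nat_ge (2 / δ)
  obtain ⟨M0, hM0⟩ : ∃ M0 : ℕ, M0 = M1 + 1 + N1 + N2 + N3 + N4 := ⟨_, rfl⟩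
  refine ⟨M0, by omega, by omega, fun V _ H cc Δ hΔ hdeg hpairs => ?_⟩
  have hM0pos : 0 < M0 := by omega
  -- the number of steps
  obtain ⟨T, hT⟩ : ∃ T, T = Nat.log 2 (Δ / M0) := ⟨_, rfl⟩
  have hdiv : Δ / M0 ≠ 0 := by
    have := Nat.div_pos hΔ hM0pos
    omega
  have hT1 : 2 ^ T * M0 ≤ Δ := by
    have h1 : 2 ^ T ≤ Δ / M0 := by rw [hT]; exact Nat.pow_log_le_self 2 hdiv
    calc 2 ^ T * M0 ≤ Δ / M0 * M0 := Nat.mul_le_mul_right _ h1
      _ ≤ Δ := Nat.div_mul_le_self _ _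
  have hT2 : Δ < 2 ^ (T + 1) * M0 := by
    have h1 : Δ / M0 < 2 ^ (T + 1) := by rw [hT]; exact Nat.lt_pow_succ_log_self (by norm_num) _
    exact (Nat.div_lt_iff_lt_mul hM0pos).mp h1
  obtain ⟨x, hx⟩ : ∃ x : ℝ, x = (Δ : ℝ) / 2 ^ T := ⟨_, rfl⟩
  have h2T : (0 : ℝ) < 2 ^ T := by positivity
  have hxT : x * 2 ^ T = Δ := by rw [hx]; field_simp
  have hxM : (M0 : ℝ) ≤ x := by
    rw [hx, le_div_iff₀ h2T, mul_comm]
    exact_mod_cast hT1
  have hx2M : x < 2 * M0 := by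
    rw [hx, div_lt_iff₀ h2T]
    have h1 : (Δ : ℝ) < 2 ^ (T + 1) * M0 := by exact_mod_cast hT2
    calc (Δ : ℝ) < 2 ^ (T + 1) * M0 := h1
      _ = 2 * M0 * 2 ^ T := by rw [pow_succ]; ring
  have hMr : (M0 : ℝ) = M1 + 1 + N1 + N2 + N3 + N4 := by rw [hM0]; push_cast; ring
  have hM1' : (0 : ℝ) ≤ M1 := Nat.cast_nonneg _
  have hN1' : (0 : ℝ) ≤ N1 := Nat.cast_nonneg _
  have hN2' : (0 : ℝ) ≤ N2 := Nat.cast_nonneg _
  have hN3' : (0 : ℝ) ≤ N3 := Nat.cast_nonneg _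
  have hN4' : (0 : ℝ) ≤ N4 := Nat.cast_nonneg _
  have hx1 : 1 ≤ x := by linarith
  have hstep := step_ok he0 he2 hδ0 hδ hx1 (by linarith) (by linarith) (by linarith)
  have hx0 : 0 < x := by linarith
  have hΔ0 : (0 : ℝ) ≤ Δ := Nat.cast_nonneg _
  have h4T : (1 : ℝ) ≤ 1 + e * (3 / 4) ^ T := by
    have : 0 ≤ e * (3 / 4) ^ T := by positivity
    linarith
  -- the induction
  have key : ∀ s ≤ T, ∃ part : V → ℕ, NearBd H (2 ^ s) part (B e x (T - s)) ∧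
      (∀ v, Nat.card {p : V × V // (H.Adj v p.1 ∧ part p.1 = part v) ∧
        (H.Adj v p.2 ∧ part p.2 = part v) ∧ H.Adj p.1 p.2} ≤ F e δ x (T - s)) ∧
      ∀ m < 2 ^ s, ∀ c : Bool,
        Nat.card {v // cc v = c} / 2 ^ s ≤ Nat.card {v // part v = m ∧ cc v = c} ∧
        Nat.card {v // part v = m ∧ cc v = c} ≤ Nat.card {v // cc v = c} / 2 ^ s + 1 := by
    intro s
    induction s with
    | zero =>
      intro _
      refine ⟨fun _ => 0, ⟨fun _ => by norm_num, fun v m hm _ => ?_⟩, fun v => ?_,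
        fun m hm c => ?_⟩
      · have hm0 : m = 0 := by
          rw [pow_zero] at hm
          omega
        subst hm0
        have h1 : Nat.card {u // H.Adj v u ∧ (0 : ℕ) = 0} ≤ Δ := by
          have h2 : Nat.card {u // H.Adj v u ∧ (0 : ℕ) = 0} = Nat.card {u // H.Adj v u} :=
            Nat.card_congr (Equiv.subtypeEquivRight fun u => by simp)
          rw [h2]
          exact hdeg v
        refine h1.trans ?_
        have h3 : (Δ : ℝ) ≤ B e x (T - 0) := by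
          refine le_trans ?_ (le_B e x (T - 0))
          rw [Nat.sub_zero, hxT]
          nlinarith
        exact_mod_cast h3
      · have h2 : Nat.card {p : V × V // (H.Adj v p.1 ∧ (0 : ℕ) = 0) ∧
            (H.Adj v p.2 ∧ (0 : ℕ) = 0) ∧ H.Adj p.1 p.2} =
            Nat.card {p : V × V // H.Adj v p.1 ∧ H.Adj v p.2 ∧ H.Adj p.1 p.2} :=
          Nat.card_congr (Equiv.subtypeEquivRight fun u => by simp)
        rw [h2]
        have h3 : (Nat.card {p : V × V // H.Adj v p.1 ∧ H.Adj v p.2 ∧ H.Adj p.1 p.2} : ℝ) ≤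
            F e δ x (T - 0) := by
          refine (hpairs v).trans (le_trans ?_ (le_F e δ x (T - 0)))
          rw [Nat.sub_zero, hxT]
          have h5 : 0 ≤ (1 - δ) * (Δ : ℝ) ^ 2 := mul_nonneg (by linarith) (by positivity)
          nlinarith
        exact_mod_cast h3
      · have hm0 : m = 0 := by
          rw [pow_zero] at hm
          omega
        subst hm0
        have h2 : Nat.card {v : V // (0 : ℕ) = 0 ∧ cc v = c} = Nat.card {v : V // cc v = c} :=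
          Nat.card_congr (Equiv.subtypeEquivRight fun u => by simp)
        rw [h2, pow_zero, Nat.div_one]
        exact ⟨le_rfl, Nat.le_succ _⟩
    | succ s ih =>
      intro hs
      obtain ⟨part, hpart, hpr, hsize⟩ := ih (by omega)
      have e1 : T - s = (T - (s + 1)) + 1 := by omega
      rw [e1] at hpart hpr
      obtain ⟨b1, b2, b3, b4, b5⟩ := hstep (T - (s + 1))
      obtain ⟨part', -, hp2, hp3, hp4⟩ := hH V H (2 ^ s) part cc _ _ _ _ Nat.one_le_two_pow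
        b1 b2 b3 hpart hpr b4 b5
      refine ⟨part', ?_, hp3, fun m hm c => ?_⟩
      · rw [pow_succ']
        exact hp2
      · rw [pow_succ'] at hm
        have hm2 : m = 2 * (m / 2) + m % 2 := by omega
        obtain ⟨h1, h2⟩ := hp4 (m / 2) (by omega) c (m % 2) (Nat.mod_lt _ (by norm_num))
        rw [← hm2] at h1 h2
        obtain ⟨h3, h4⟩ := hsize (m / 2) (by omega) c
        have h5 : Nat.card {v // cc v = c} / 2 ^ (s + 1) =
            Nat.card {v // cc v = c} / 2 ^ s / 2 := by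
          rw [pow_succ, Nat.div_div_eq_div_mul]
        rw [h5]
        constructor <;> omega
  obtain ⟨part, hpart, hpr, hsize⟩ := key T le_rfl
  rw [Nat.sub_self] at hpart hpr
  have hB0 : x * (1 + e) ≤ B e x 0 := by
    have h := le_B e x 0
    rw [pow_zero, pow_zero, mul_one, mul_one] at h
    exact h
  have hB1 : (B e x 0 : ℝ) < x * (1 + e) + 1 := by
    have h := B_lt he0.le hx0.le 0
    rw [pow_zero, pow_zero, mul_one, mul_one] at h
    exact h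
  have hM0r : (1 : ℝ) ≤ M0 := by exact_mod_cast hM0pos
  refine ⟨2 ^ T, B e x 0, part, Nat.one_le_two_pow, ?_, ?_, hT1, ?_, hpart, ?_, hsize⟩
  · have h1 : (M0 : ℝ) ≤ B e x 0 := by nlinarith
    exact_mod_cast h1
  · have h1 : (B e x 0 : ℝ) ≤ 5 * M0 := by nlinarith
    exact_mod_cast h1
  · have h1 : ((2 ^ T : ℕ) : ℝ) = 2 ^ T := by push_cast; ring
    rw [h1]
    have h2 : (2 : ℝ) ^ T * M0 ≤ Δ := by exact_mod_cast hT1
    have h3 : 1 ≤ e * M0 := by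
      have h4 : 4 / e ≤ M0 := by linarith
      rw [div_le_iff₀ he0] at h4
      linarith
    have h5 : (2 : ℝ) ^ T ≤ e * Δ := by
      calc (2 : ℝ) ^ T = 2 ^ T * 1 := by ring
        _ ≤ 2 ^ T * (e * M0) := mul_le_mul_of_nonneg_left h3 h2T.le
        _ = e * (2 ^ T * M0) := by ring
        _ ≤ e * Δ := mul_le_mul_of_nonneg_left h2 he0.le
    calc (2 : ℝ) ^ T * B e x 0 ≤ 2 ^ T * (x * (1 + e) + 1) :=
          mul_le_mul_of_nonneg_left hB1.le h2T.le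
      _ = x * 2 ^ T * (1 + e) + 2 ^ T := by ring
      _ = Δ * (1 + e) + 2 ^ T := by rw [hxT]
      _ ≤ Δ * (1 + e) + e * Δ := by linarith
      _ = (1 + 2 * e) * Δ := by ring
      _ ≤ (1 + η) * Δ := by
          apply mul_le_mul_of_nonneg_right _ (Nat.cast_nonneg _)
          linarith
  · intro v
    have h1 : (Nat.card {p : V × V // (H.Adj v p.1 ∧ part p.1 = part v) ∧
        (H.Adj v p.2 ∧ part p.2 = part v) ∧ H.Adj p.1 p.2} : ℝ) ≤ F e δ x 0 := by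
      exact_mod_cast hpr v
    have h2 := F_lt (x := x) he0.le hδ 0
    rw [pow_zero, pow_zero, mul_one, mul_one] at h2
    have h3 : 1 ≤ δ / 2 * ((1 + e) * x ^ 2) := by
      have h4 : 2 / δ ≤ x := by linarith
      rw [div_le_iff₀ hδ0] at h4
      have h5 : 1 ≤ δ / 2 * x ^ 2 := by nlinarith
      have h6 : δ / 2 * x ^ 2 ≤ δ / 2 * ((1 + e) * x ^ 2) := by
        have : 0 ≤ e * x ^ 2 := by positivity
        nlinarith
      linarith
    have h4 : (1 + e) * x ^ 2 ≤ (B e x 0 : ℝ) ^ 2 := by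
      have h5 : (x * (1 + e)) ^ 2 ≤ (B e x 0 : ℝ) ^ 2 :=
        pow_le_pow_left₀ (by positivity) hB0 2
      have h6 : (1 + e) * x ^ 2 ≤ (x * (1 + e)) ^ 2 := by
        have h7 : (x * (1 + e)) ^ 2 = (1 + e) * x ^ 2 + e * (1 + e) * x ^ 2 := by ring
        have h8 : 0 ≤ e * (1 + e) * x ^ 2 := by positivity
        linarith
      linarith
    have h5 : (1 - δ / 2) * ((1 + e) * x ^ 2) ≤ (1 - δ / 2) * (B e x 0 : ℝ) ^ 2 :=
      mul_le_mul_of_nonneg_left h4 (by linarith)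
    have h6 : (1 - δ / 2) * ((1 + e) * x ^ 2) =
        (1 - δ) * x ^ 2 * (1 + e) + δ / 2 * ((1 + e) * x ^ 2) := by ring
    linarith

end Pool.Agent.Helper5.Sey3
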